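import Mathlib

set_option autoImplicit false

namespace Pool.Agent.H.MP_4f9d30_an

open Set Filter Topology MeasureTheory Function Metric
open scoped ENNReal NNReal

variable {X : Type} [MetricSpace X]

/-- exponents of a measure -/
def SM [MeasurableSpace X] (μ : Measure X) : Set ℝ :=
  {s | 0 ≤ s ∧ ∃ C > 0, ∀ x ∈ μ.support, ∀ r ∈ Ioc (0 : ℝ) 1, C * r ^ s ≤ μ.real (ball x r)}

/-- exponents of a set -/
def SB (K : Set X) : Set ℝ :=
  {s | 0 ≤ s ∧ ∃ C : ℝ, ∀ r : ℝ≥0, 0 < r → r ≤ 1 → (coveringNumber r K : ℝ≥0∞) ≤ .ofReal (C * (r : ℝ) ^ (-s))}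

theorem sub [MeasurableSpace X] [BorelSpace X] (μ : Measure X) [IsProbabilityMeasure μ] :
    SM μ ⊆ SB μ.support := fun s ⟨s0, C, C0, h⟩ => ⟨s0, 2 ^ s / C, fun r r0 r1 => by
  have r0' : (0 : ℝ) < r := r0
  have k : ∀ E : Finset X, ↑E ⊆ μ.support → IsSeparated r (E : Set X) → (E.card : ℝ) ≤ 2 ^ s / C * (r : ℝ) ^ (-s) :=
    fun E e1 e2 => by
      have := (Finset.card_nsmul_le_sum E _ _ fun x hx => h x (e1 hx) (r / 2) ⟨by positivity, by
        linarith [show (r : ℝ) ≤ 1 from r1]⟩).trans ((measureReal_biUnion_finset (fun x hx y hy xy =>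
          ball_disjoint_ball (by simpa [edist_dist, ← ENNReal.ofReal_coe_nnreal,
            ENNReal.ofReal_le_ofReal_iff dist_nonneg] using (e2 hx hy xy).le)) fun _ _ => measurableSet_ball).ge.trans
              measureReal_le_one)
      rw [nsmul_eq_mul, Real.div_rpow r0'.le two_pos.le] at this
      rw [Real.rpow_neg r0'.le, ← div_eq_mul_inv, div_div, le_div_iff₀ (by positivity)]
      rwa [← mul_div_assoc, ← mul_div_assoc, div_le_one (by positivity)] at this
  refine (ENat.toENNReal_le.2 (coveringNumber_le_packingNumber r _)).trans ?_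
  simp only [packingNumber, ENat.toENNReal_iSup, iSup_le_iff]
  intro E e1 e2
  have f : E.Finite := by
    by_contra f
    obtain ⟨N, hN⟩ := exists_nat_gt (2 ^ s / C * (r : ℝ) ^ (-s))
    obtain ⟨F, f1, rfl⟩ := Set.Infinite.exists_subset_card_eq f N
    exact (k F (f1.trans e1) (e2.subset f1)).not_gt hN
  lift E to Finset X using f
  simpa [← ENNReal.ofReal_natCast] using ENNReal.ofReal_le_ofReal (k E e1 e2)⟩

theorem main [MeasurableSpace X] [BorelSpace X] {A : Type} [Fintype A] [Nonempty A] [TopologicalSpace A]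
    [DiscreteTopology A] [MeasurableSpace A] [BorelSpace A] (π : (ℕ → A) → X)
    (h : ∀ k ω η, (∀ i < k, ω i = η i) → dist (π ω) (π η) ≤ 4 * 2⁻¹ ^ k) :
    ∃ ν : Measure (ℕ → A), IsProbabilityMeasure ν ∧ MeasurePreserving (fun ω i => ω (i + 1)) ν ν ∧
      (ν.map π).support = range π ∧ ∃ s, IsGLB (SM (ν.map π)) s ∧ IsGLB (SB (range π)) s := by
  classical
  have c : Continuous π := continuous_iff_continuousAt.2 fun ω => Metric.tendsto_nhds.2 fun e e0 => by
    obtain ⟨k, hk⟩ := exists_pow_lt_of_lt_one (show 0 < e / 4 by positivity) (show (2⁻¹ : ℝ) < 1 by norm_num)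
    filter_upwards [(eventually_all_finite (finite_lt_nat k)).2 fun i _ =>
      (continuous_apply i).continuousAt.eventually ((isOpen_discrete {ω i}).mem_nhds rfl)] with η hη
    linarith [h k η ω hη]
  have near : ∀ r ∈ Ioc (0 : ℝ) 1, ∃ k, 6 * 2⁻¹ ^ k < r ∧ r ≤ 12 * 2⁻¹ ^ k := fun r hr => by
    obtain ⟨k, k1, k2⟩ := exists_nat_pow_near_of_lt_one (show 0 < r / 6 by linarith [hr.1]) (by linarith [hr.2])
      (show (0 : ℝ) < 2⁻¹ by norm_num) (by norm_num)
    exact ⟨k + 1, by linarith, by rw [pow_succ]; linarith⟩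
  have ne : (Fintype.card A : ℝ) ∈ SB (range π) := ⟨by positivity, 24 ^ Fintype.card A, fun r r0 r1 => by
    obtain ⟨k, k1, k2⟩ := near r ⟨r0, r1⟩
    let g : (Fin (k + 1) → A) → X := fun w => π fun i => w (Fin.ofNat _ i)
    have : coveringNumber r (range π) ≤ (Fintype.card A ^ (k + 1) : ℕ) :=
      (IsCover.coveringNumber_le_encard (ε := r) (A := range π) (C := range g)
        (range_subset_iff.2 fun _ => mem_range_self _) (by
        rintro _ ⟨ω, rfl⟩
        refine ⟨_, mem_range_self (fun i : Fin (k + 1) => ω i), ?_⟩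
        have := h k ω (fun i => ω (Fin.ofNat (k + 1) i)) fun i hi => by simp [Nat.mod_eq_of_lt (by omega : i < k + 1)]
        simp only [mem_ofPred_eq, edist_dist, ← ENNReal.ofReal_coe_nnreal]
        exact ENNReal.ofReal_le_ofReal (by linarith [show (0 : ℝ) ≤ 2⁻¹ ^ k by positivity]))).trans
          (by simpa using encard_image_le g univ)
    refine (ENat.toENNReal_le.2 this).trans ?_
    rw [ENat.toENNReal_coe, ← ENNReal.ofReal_natCast]
    have r0 : (0 : ℝ) < r := r0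
    rw [Real.rpow_neg r0.le, Real.rpow_natCast, ← inv_pow, ← mul_pow]
    refine ENNReal.ofReal_le_ofReal (le_trans (b := (2 ^ (k + 1)) ^ Fintype.card A) ?_
      (pow_le_pow_left₀ (by positivity) ?_ _))
    · rw [← pow_mul, mul_comm, pow_mul]
      exact_mod_cast Nat.pow_le_pow_left Nat.lt_two_pow_self.le _
    rw [inv_pow, ← div_eq_mul_inv, le_div_iff₀ (by positivity)] at k2
    rw [← div_eq_mul_inv, le_div_iff₀ r0, pow_succ]
    linarith⟩
  have fin : ∀ k, coveringNumber (2⁻¹ ^ k) (range π) ≠ ⊤ := fun k e => by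
    obtain ⟨C, hC⟩ := ne.2
    have := hC (2⁻¹ ^ k) (by positivity) (pow_le_one₀ (by simp) (by norm_num))
    rw [e] at this
    simp at this
  let F := fun k => minimalCover (2⁻¹ ^ k) (range π)
  have := fun k => (finite_minimalCover (ε := 2⁻¹ ^ k) (A := range π)).fintype
  choose w hw using fun k (x : F k) => minimalCover_subset x.2
  let Y : (Σ k, F k × ZMod (k + 1)) → ℕ → A := fun z i => w z.1 z.2.1 ((i : ZMod (z.1 + 1)) + z.2.2).val
  let W : ℕ → ℝ := fun k => 1 / (k + 1) ^ 2 / (Fintype.card (F k) * (k + 1))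
  have hF : ∀ k x, ∃ y : F k, π (Y ⟨k, y, 0⟩) ∈ ball (π x) (6 * 2⁻¹ ^ k) := fun k x => by
    obtain ⟨y, y1, y2⟩ := isCover_minimalCover (fin k) (mem_range_self x)
    refine ⟨⟨y, y1⟩, ?_⟩
    have := h k (Y ⟨k, ⟨y, y1⟩, 0⟩) (w k ⟨y, y1⟩) fun i hi => by
      simp [Y, Nat.mod_eq_of_lt (by omega : i < k + 1)]
    rw [hw] at this
    have y2 : dist (π x) y ≤ 2⁻¹ ^ k := by
      simpa only [coe_nndist, NNReal.coe_pow, NNReal.coe_inv, NNReal.coe_ofNat] using
        NNReal.coe_le_coe.2 (edist_le_coe.1 y2 : nndist _ _ ≤ _)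
    rw [mem_ball]
    linarith [dist_triangle_right (π (Y ⟨k, ⟨y, y1⟩, 0⟩)) (π x) y, show (0 : ℝ) < 2⁻¹ ^ k by positivity]
  have cF : ∀ k, (0 : ℝ) < Fintype.card (F k) := fun k =>
    Nat.cast_pos.2 (Fintype.card_pos_iff.2 ⟨(hF k fun _ => Classical.arbitrary _).choose⟩)
  have W0 : ∀ k, 0 < W k := fun k => by have := cF k; positivity
  let ν : Measure (ℕ → A) := .sum fun z => ENNReal.ofReal (W z.1) • .dirac (Y z)
  have lo : ∀ k x, ENNReal.ofReal (W k) ≤ ν (π ⁻¹' ball (π x) (6 * 2⁻¹ ^ k)) := fun k x => by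
    obtain ⟨y, hy⟩ := hF k x
    refine le_trans ?_ (Measure.le_sum _ ⟨k, y, 0⟩ _)
    rw [Measure.smul_apply, Measure.dirac_apply_of_mem (by exact hy), smul_eq_mul, mul_one]
  have : IsFiniteMeasure ν := ⟨by
    have s : Summable fun k : ℕ => (1 / (k + 1) ^ 2 : ℝ) := by
      exact_mod_cast (summable_nat_add_iff 1).2 (Real.summable_one_div_nat_pow.2 one_lt_two)
    rw [Measure.sum_apply _ .univ, ENNReal.tsum_sigma']
    refine lt_of_eq_of_lt (tsum_congr fun k => ?_) ((ENNReal.ofReal_tsum_of_nonneg (fun _ => by positivity) s).ge.trans_lt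
      ENNReal.ofReal_lt_top)
    simp only [Measure.smul_apply, measure_univ, smul_eq_mul, mul_one, tsum_fintype, Finset.sum_const, nsmul_eq_mul,
      Finset.card_univ, Fintype.card_prod, ZMod.card]
    rw [← ENNReal.ofReal_natCast, ← ENNReal.ofReal_mul (by positivity)]
    have := cF k
    congr 1
    simp only [W]
    push_cast
    field_simp⟩
  have : NeZero ν := ⟨fun e => by simpa [e, (W0 0).not_ge] using lo 0 fun _ => Classical.arbitrary _⟩
  have ms : Measurable fun (ω : ℕ → A) i => ω (i + 1) := by fun_prop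
  have Z0 : 0 < (ν.real univ)⁻¹ := inv_pos.2 measureReal_univ_pos
  have := Measure.isProbabilityMeasure_map (μ := (ν univ)⁻¹ • ν) c.aemeasurable
  have lb : ∀ k x r, 6 * 2⁻¹ ^ k < r → (ν.real univ)⁻¹ * W k ≤ (((ν univ)⁻¹ • ν).map π).real (ball (π x) r) :=
    fun k x r hr => by
      rw [map_measureReal_apply c.measurable measurableSet_ball, measureReal_ennreal_smul_apply, ENNReal.toReal_inv]
      exact mul_le_mul_of_nonneg_left ((ENNReal.ofReal_le_iff_le_toReal (measure_ne_top _ _)).1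
        ((lo k x).trans (measure_mono (preimage_mono (ball_subset_ball hr.le))))) Z0.le
  have su : (((ν univ)⁻¹ • ν).map π).support = range π := by
    have cl := (isCompact_range c).isClosed
    refine (Measure.support_subset_of_isClosed cl ((ae_map_iff c.aemeasurable cl.measurableSet).2
      (ae_of_all _ mem_range_self))).antisymm ?_
    rintro _ ⟨x, rfl⟩
    refine (Measure.mem_support_iff_forall _).2 fun U hU => ?_
    obtain ⟨r, r0, hr⟩ := Metric.mem_nhds_iff.1 hU
    obtain ⟨k, k1, -⟩ := near (min r 1) ⟨by positivity, min_le_right _ _⟩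
    exact (ENNReal.toReal_pos_iff.1 ((mul_pos Z0 (W0 k)).trans_le
      (lb k x r (k1.trans_le (min_le_left _ _))))).1.trans_le (measure_mono hr)
  have g := isGLB_csInf ⟨_, ne⟩ ⟨0, fun _ h => h.1⟩
  refine ⟨(ν univ)⁻¹ • ν, inferInstance, MeasurePreserving.smul_measure ⟨ms, ?_⟩ _, su, _,
    ⟨fun t ht => g.1 (su ▸ sub _ ht), fun b hb => g.2 fun t ⟨t0, C, hC⟩ => le_of_forall_gt_imp_ge_of_dense
      fun u hu => hb ⟨t0.trans hu.le, ?_⟩⟩, g⟩
  · rw [Measure.map_sum ms.aemeasurable]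
    refine Eq.trans (congrArg _ (funext fun z => ?_)) (Measure.sum_comp_equiv
      (Equiv.sigmaCongrRight fun k => (Equiv.refl (F k)).prodCongr (Equiv.addRight (1 : ZMod (k + 1)))) _)
    rw [Measure.map_smul, Measure.map_dirac' ms, comp_apply]
    congr 2
    ext i
    simp [Y, add_assoc, add_comm (1 : ZMod _)]
  have q0 : (0 : ℝ) < 2⁻¹ ^ (u - t) := by positivity
  obtain ⟨B, hB⟩ := (tendsto_pow_const_mul_const_pow_of_abs_lt_one 3 (show |(2⁻¹ : ℝ) ^ (u - t)| < 1 from
    (abs_of_pos q0).trans_lt (Real.rpow_lt_one (by norm_num) (by norm_num) (by linarith)))).bddAbove_range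
  have N : ∀ k, (Fintype.card (F k) : ℝ) ≤ C * (2⁻¹ ^ k) ^ (-t) := fun k => by
    have := hC (2⁻¹ ^ k) (by positivity) (pow_le_one₀ (by simp) (by norm_num))
    rw [← encard_minimalCover (fin k), ← coe_fintypeCard, ENat.toENNReal_coe, ← ENNReal.ofReal_natCast,
      ENNReal.ofReal_le_ofReal_iff'] at this
    simpa only [NNReal.coe_pow, NNReal.coe_inv, NNReal.coe_ofNat] using this.resolve_right (cF k).not_ge
  have C0 : 0 < C := by simpa using (cF 0).trans_le (N 0)
  have B0 : 0 < B := lt_of_lt_of_le (by simpa using q0) (hB (mem_range_self 1))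
  refine ⟨(ν.real univ)⁻¹ * (2⁻¹ ^ (u - t) / (B * C * 12 ^ u)), by positivity, su ▸ ?_⟩
  rintro _ ⟨x, rfl⟩ r hr
  obtain ⟨k, k1, k2⟩ := near r hr
  refine le_trans ?_ (lb k x r k1)
  rw [mul_assoc]
  refine mul_le_mul_of_nonneg_left ?_ Z0.le
  have b := hB (mem_range_self (k + 1))
  have r1 := Real.rpow_le_rpow hr.1.le k2 (t0.trans hu.le)
  have := cF k
  rw [Real.mul_rpow (by norm_num) (by positivity)] at r1
  have e : ((2⁻¹ : ℝ) ^ k) ^ u * (2⁻¹ ^ k) ^ (-t) = (2⁻¹ ^ (u - t)) ^ k := by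
    rw [← Real.rpow_add (by positivity), ← Real.rpow_natCast, ← Real.rpow_natCast, ← Real.rpow_mul (by norm_num),
      ← Real.rpow_mul (by norm_num), mul_comm, sub_eq_add_neg]
  simp only [W, pow_succ _ k] at b ⊢
  push_cast at b
  rw [div_mul_eq_mul_div, div_div, div_le_div_iff₀ (by positivity) (by positivity), one_mul]
  calc _ = 2⁻¹ ^ (u - t) * (k + 1) ^ 3 * (r ^ u * Fintype.card (F k)) := by ring
    _ ≤ 2⁻¹ ^ (u - t) * (k + 1) ^ 3 * (12 ^ u * (2⁻¹ ^ k) ^ u * (C * (2⁻¹ ^ k) ^ (-t))) := by gcongr; exact N k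
    _ = (k + 1) ^ 3 * (((2⁻¹ : ℝ) ^ k) ^ u * (2⁻¹ ^ k) ^ (-t) * 2⁻¹ ^ (u - t)) * C * 12 ^ u := by ring
    _ ≤ _ := by rw [e]; gcongr

end Pool.Agent.H.MP_4f9d30_an
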